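import Mathlib
import Pool.Agent.Y952.VT.Base

set_option autoImplicit false

namespace Pool.Agent.Y952.VT

open Pool.Agent.H231EC

open Finset

namespace Base

variable {V C : Type} [Fintype V] [Fintype C] {k : ℕ} (B : Base V C k)

open Classical in
/-- An environment: a family `T r` of good colourings stable under cheap changes, and a set `Q` of
robust colours outside `W` which may be protected (at most `n` of them at a time). -/
structure Env where
  Q : Finset C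
  T : ℕ → ECol (dl B.G B.x) C → Prop
  n : ℕ
  good : ∀ r φ, T r φ → B.Good φ
  step : ∀ r φ ψ s, T r φ → B.Good ψ → B.nr φ ψ s → T (r + s) ψ
  av : ∀ r φ, r ≤ 8 → T r φ → ∀ P : Finset C, (P.filter (fun a => ¬ B.W a)).card ≤ n →
    (∀ a ∈ P, ¬ B.W a → a ∈ Q) → B.Av φ P
  qW : ∀ a ∈ Q, ¬ B.W a

variable {B}

/-- (FS) inside an environment, for `z` not adjacent to `x`. -/
theorem Env.FS [DecidableEq C] (E : B.Env) {r : ℕ} (hr : r ≤ 8) {φ : ECol (dl B.G B.x) C}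
    (h : E.T r φ) {z : V} (hzW : z ∉ B.Wn)
    (hzy : z ≠ B.y) (hzL : z ∉ B.L) {p q : C} (hp : Miss φ z p) (hq : ¬ Miss φ z q)
    (hpq : ¬ (B.W p ∧ B.W q)) (P : Finset C)
    (hP : ∀ a ∈ P, ∀ a' ∈ P, B.W a → B.W a' → a = a')
    (hP1 : ∃ P' : Finset C, P'.card ≤ E.n ∧ ∀ a ∈ P, ¬ B.W a → a ∈ P') (hPQ : ∀ a ∈ P, ¬ B.W a → a ∈ E.Q) :
    ∃ ψ : ECol (dl B.G B.x) C, E.T (r + 1) ψ ∧
      (∀ d ∈ P, d ≠ p → d ≠ q → Ag φ ψ d) ∧ Miss ψ z q ∧
      (∀ u v, (dl B.G B.x).Adj u v → Lk φ p q z u → φ.c u v = q → ψ.c u v = p) ∧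
      (∀ u v, (dl B.G B.x).Adj u v → Lk φ p q z u → φ.c u v = p → ψ.c u v = q) ∧
      (∀ u v, (dl B.G B.x).Adj u v → ¬ Lk φ p q z u → φ.c u v = q → ψ.c u v = q) := by
  classical
  obtain ⟨P', hP', hPP'⟩ := hP1
  have hcard : (P.filter (fun a => ¬ B.W a)).card ≤ E.n := by
    refine (Finset.card_le_card ?_).trans hP'
    intro a ha
    rw [Finset.mem_filter] at ha
    exact hPP' a ha.1 ha.2
  obtain ⟨ψ, h1, h2, h3, h4, h5, h6, h7, -, -⟩ := B.FS (E.good r φ h) hzW hzy hp hq hpq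
    (fun hh => absurd hh hzL) P hP (E.av r φ hr h P hcard hPQ)
  exact ⟨ψ, E.step r φ ψ 1 h h1 h2, h3, h4, h5, h6, h7⟩

open Classical in
/-- number of colours missing at `z`. -/
noncomputable def nm (φ : ECol (dl B.G B.x) C) (z : V) : ℕ := (Finset.univ.filter (fun a => Miss φ z a)).card

end Base

end Pool.Agent.Y952.VT
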