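import Mathlib
import Pool.Agent.H231EC.Defs

set_option autoImplicit false

namespace Pool.Agent.Y952.VT

open Pool.Agent.H231EC

open Classical in
/-- a critical counterexample -/
structure Crit {V : Type} [Fintype V] (G : SimpleGraph V) (C : Type) [Fintype C] (k : ℕ) : Prop where
  nc : ECol G C → False
  cr : ∀ x y, G.Adj x y → Nonempty (ECol (de G x y) C)
  deg : ∀ v, dg G v ≤ Fintype.card C
  dgn : ∀ s : Finset V, s.Nonempty → ∃ v ∈ s, (s.filter (fun w => G.Adj v w)).card ≤ k
  hk : 24 ≤ k
  hC : 2 * k - 1 ≤ Fintype.card C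

end Pool.Agent.Y952.VT
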