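import Mathlib
import Pool.Agent.Y952.VT.Base
import Pool.Agent.H231EC.Fan
import Pool.Agent.Y952.VT.CritDef

set_option autoImplicit false

namespace Pool.Agent.Y952.VT

open Pool.Agent.H231EC

open Finset



theorem exists_base {V C : Type} [Fintype V] [Fintype C] {G : SimpleGraph V} {k : ℕ}
    (h : Crit G C k) {x y : V} (hx : XX G k x) (hxy : G.Adj x y) (hy : dg G y ≤ k) :
    ∃ B : Base V C k, B.G = G ∧ B.x = x ∧ B.y = y ∧ B.Wn = bigN G k x ∧
      (∀ l, l ∈ B.L ↔ G.Adj x l ∧ dg G l ≤ k ∧ l ≠ y) ∧ B.L.card + k + 1 = dg G x ∧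
      ∃ φ : ECol (dl B.G B.x) C, B.Good φ := by
  classical
  obtain ⟨ψ⟩ := h.cr x y hxy
  obtain ⟨φ, f, hf1, hf2⟩ := restrict ψ
  have hsd : SDRx G x y φ f := ⟨hf1, hf2⟩
  have hk := h.hk
  have hk2 : 2 ≤ k := by omega
  obtain ⟨hC, hdy, hbig, hbigC, hfan⟩ := fan_struct hk2 h.hC h.nc h.cr h.deg hx hxy hy
  let L : Finset V := Finset.univ.filter (fun l => G.Adj x l ∧ dg G l ≤ k ∧ l ≠ y)
  have hL : ∀ l, l ∈ L ↔ G.Adj x l ∧ dg G l ≤ k ∧ l ≠ y := by
    intro l
    simp [L]
  have hB : ∀ w, w ∈ bigN G k x ↔ G.Adj x w ∧ ¬ dg G w ≤ k := by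
    intro w
    simp [bigN]
  have hyL : y ∉ L := fun hh => ((hL y).1 hh).2.2 rfl
  have hyW : y ∉ bigN G k x := fun hh => ((hB y).1 hh).2 hy
  have hWL : ∀ u ∈ bigN G k x, u ∉ L := fun u hu hu' => ((hB u).1 hu).2 ((hL u).1 hu').2.1
  have hdx : L.card + k + 1 = dg G x := by
    have h1 : Finset.univ.filter (fun w => G.Adj x w) = bigN G k x ∪ insert y L := by
      ext w
      rw [Finset.mem_filter, Finset.mem_union, Finset.mem_insert, hB, hL]
      constructor
      · rintro ⟨-, hw⟩
        by_cases h2 : dg G w ≤ k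
        · by_cases h3 : w = y
          · exact Or.inr (Or.inl h3)
          · exact Or.inr (Or.inr ⟨hw, h2, h3⟩)
        · exact Or.inl ⟨hw, h2⟩
      · rintro (hw | hw | hw)
        · exact ⟨Finset.mem_univ _, hw.1⟩
        · exact ⟨Finset.mem_univ _, hw ▸ hxy⟩
        · exact ⟨Finset.mem_univ _, hw.1⟩
    have h2 : Disjoint (bigN G k x) (insert y L) := by
      rw [Finset.disjoint_left]
      intro u hu hu'
      rw [Finset.mem_insert] at hu'
      rcases hu' with rfl | hu'
      · exact hyW hu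
      · exact hWL u hu hu'
    have h3 : dg G x = (Finset.univ.filter (fun w => G.Adj x w)).card := by
      unfold dg
      congr
    rw [h3, h1, Finset.card_union_of_disjoint h2, Finset.card_insert_of_notMem hyL, hbig]
    omega
  have hcL : L.card + 2 ≤ k := by
    have h1 := h.deg x
    omega
  have hWy : ∀ u ∈ bigN G k x, u ≠ y := by
    rintro u hu rfl
    exact hyW hu
  let B : Base V C k :=
    { G := G
      x := x
      y := y
      Wn := bigN G k x
      L := L
      m := f
      nc := h.nc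
      hC := hC
      hk := hk2
      adjx := by
        intro u
        rw [hB, hL]
        constructor
        · intro hu
          by_cases h2 : dg G u ≤ k
          · by_cases h3 : u = y
            · exact Or.inr (Or.inl h3)
            · exact Or.inr (Or.inr ⟨hu, h2, h3⟩)
          · exact Or.inl ⟨hu, h2⟩
        · rintro (hw | hw | hw)
          · exact hw.1
          · exact hw ▸ hxy
          · exact hw.1
      yW := hyW
      yL := hyL
      WL := hWL
      cW := hbig
      cL := hcL
      mi := by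
        intro u hu v hv huv
        exact hf2 u v ((hB u).1 hu).1 (hWy u hu) ((hB v).1 hv).1 (hWy v hv) huv
      degL := by
        intro l hl
        have hl' := (hL l).1 hl
        exact (fan_struct hk2 h.hC h.nc h.cr h.deg hx hl'.1 hl'.2.1).2.1 }
  refine ⟨B, rfl, rfl, rfl, rfl, hL, hdx, φ, ⟨?_, ?_⟩, f, ?_, ?_, ?_⟩
  · intro w hw a
    have hw' : w ∈ bigN G k x := hw
    have hwx := ((hB w).1 hw').1
    have hwne : w ≠ x := hwx.ne'
    let F : Finset C := Finset.univ.filter (fun a => Miss φ w a)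
    have hF : ∀ a, a ∈ F ↔ Miss φ w a := by intro a; simp [F]
    let N : Finset V := (Finset.univ.filter (fun v => G.Adj w v)).erase x
    have hN : ∀ v, v ∈ N ↔ (dl G x).Adj w v := by
      intro v
      simp only [N, Finset.mem_erase, Finset.mem_filter, Finset.mem_univ, true_and, dl_adj]
      constructor
      · rintro ⟨h1, h2⟩
        exact ⟨h2, hwne, h1⟩
      · rintro ⟨h1, -, h2⟩
        exact ⟨h2, h1⟩
    have hcard := card_miss φ w F hF N hN
    have hNc : N.card = dg G w - 1 := by
      have h1 : N.card = (Finset.univ.filter (fun v => G.Adj w v)).card - 1 :=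
        Finset.card_erase_of_mem (by simp [hwx.symm])
      rw [h1]
      unfold dg
      congr
    have hdw := hbigC w hw'
    have hFc : F.card = 1 := by
      rw [hNc] at hcard
      omega
    obtain ⟨b, hb⟩ := Finset.card_eq_one.1 hFc
    have hfw : f w ∈ F := (hF _).2 (hf1 w hwx (hWy w hw'))
    rw [hb, Finset.mem_singleton] at hfw
    change Miss φ w a ↔ a = f w
    rw [← hF, hb, Finset.mem_singleton, hfw]
  · intro a
    exact hfan φ f hsd a
  · intro l hl
    have hl' := (hL l).1 hl
    exact hf1 l hl'.1 hl'.2.2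
  · intro l hl l' hl' heq
    have h1 := (hL l).1 hl
    have h2 := (hL l').1 hl'
    exact hf2 l l' h1.1 h1.2.2 h2.1 h2.2.2 heq
  · rintro l hl ⟨w, hw, hwl⟩
    have h1 := (hL l).1 hl
    have hw' : w ∈ bigN G k x := hw
    have h2 : w = l := hf2 w l ((hB w).1 hw').1 (hWy w hw') h1.1 h1.2.2 hwl
    exact hWL w hw' (h2 ▸ hl)

end Pool.Agent.Y952.VT
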