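import Mathlib
import Pool.Agent.Y952.VT.ClaimsAB

set_option autoImplicit false

namespace Pool.Agent.Y952.VT

open Pool.Agent.H231EC

open Finset

namespace Base

variable {V C : Type} [Fintype V] [Fintype C] {k : ℕ} {B : Base V C k}


theorem T_base_fin (E : B.Env) (hn : 2 ≤ E.n) (hQ : 3 ≤ E.Q.card) {r : ℕ} (hr : r ≤ 1)
    {ψ : ECol (dl B.G B.x) C} (hT : E.T r ψ) {v s z : V} (hv : v ∈ B.Wn) (hvs : B.G.Adj v s)
    (hsx : s ≠ B.x) (hk : 20 ≤ k)
    (hz : B.G.Adj s z ∧ z ≠ B.x ∧ z ∉ B.Wn ∧ z ≠ B.y ∧ z ∉ B.L ∧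
      ∀ ψ : ECol (dl B.G B.x) C, k ≤ nm ψ z + 1)
    (he : B.W (ψ.c v s) ∨ ψ.c v s ∈ E.Q) (hm : Miss ψ z (ψ.c v s)) : False := by
  obtain ⟨h1, h2, h3, h4, h5, h6⟩ := hz
  rcases he with he | he
  · exact claimB E hn hQ (by omega) hT hv hvs hsx h1 h2 h3 h4 h5 h6 (by omega) he hm
  · exact claimA E hn hQ (by omega) hT hv hvs hsx h1 h2 h3 h4 h5 h6 (by omega) he hm

theorem T_base_lk (E : B.Env) (hn : 2 ≤ E.n) (hQ : 3 ≤ E.Q.card)
    {φ : ECol (dl B.G B.x) C} (hT : E.T 0 φ) {v s z : V} (hv : v ∈ B.Wn) (hvs : B.G.Adj v s)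
    (hsx : s ≠ B.x) (hk : 20 ≤ k)
    (hz : B.G.Adj s z ∧ z ≠ B.x ∧ z ∉ B.Wn ∧ z ≠ B.y ∧ z ∉ B.L ∧
      ∀ ψ : ECol (dl B.G B.x) C, k ≤ nm ψ z + 1)
    (he : B.W (φ.c v s) ∨ φ.c v s ∈ E.Q) {ε : C} (hm : Miss φ z ε)
    (hW : ¬ (B.W ε ∧ B.W (φ.c v s))) : Lk φ ε (φ.c v s) z s := by
  classical
  by_contra hL
  have hvx : v ≠ B.x := by
    rintro rfl
    exact B.G.loopless.irrefl _ ((B.adjx _).2 (Or.inl hv))
  have hadj : (dl B.G B.x).Adj v s := ⟨hvs, hvx, hsx⟩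
  have hnm : ¬ Miss φ z (φ.c v s) := fun h =>
    T_base_fin E hn hQ (Nat.zero_le _) hT hv hvs hsx hk hz he h
  obtain ⟨ψ, h1, -, h3, -, -, h6⟩ := E.FS (by omega) hT hz.2.2.1 hz.2.2.2.1 hz.2.2.2.2.1 hm hnm hW ∅
    (by simp) ⟨∅, by simp, by simp⟩ (by simp)
  have e1 : φ.c s v = φ.c v s := (φ.symm v s hadj).symm
  have e2 : ψ.c s v = φ.c v s := h6 s v hadj.symm hL e1
  have e3 : ψ.c v s = φ.c v s := (ψ.symm v s hadj).trans e2
  refine T_base_fin E hn hQ (by omega) h1 hv hvs hsx hk hz ?_ ?_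
  · rw [e3]; exact he
  · rw [e3]; exact h3

theorem T_base_lk2 (E : B.Env) (hn : 2 ≤ E.n) (hQ : 3 ≤ E.Q.card)
    {φ : ECol (dl B.G B.x) C} (hT : E.T 0 φ) {v s z : V} (hv : v ∈ B.Wn) (hvs : B.G.Adj v s)
    (hsx : s ≠ B.x) (hk : 20 ≤ k)
    (hz : B.G.Adj s z ∧ z ≠ B.x ∧ z ∉ B.Wn ∧ z ≠ B.y ∧ z ∉ B.L ∧
      ∀ ψ : ECol (dl B.G B.x) C, k ≤ nm ψ z + 1)
    (he : B.W (φ.c v s)) {ε : C} (hm : Miss φ z ε) {w1 w2 : V} (hw1 : w1 ∈ B.Wn) (hw2 : w2 ∈ B.Wn)
    (hm1 : B.m w1 = ε) (hm2 : B.m w2 = φ.c v s) :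
    Lk φ ε (φ.c v s) z s ∨ Lk φ ε (φ.c v s) z w1 ∨ Lk φ ε (φ.c v s) z w2 := by
  classical
  by_contra hcon
  push Not at hcon
  obtain ⟨hs, hl1, hl2⟩ := hcon
  have hvx : v ≠ B.x := by
    rintro rfl
    exact B.G.loopless.irrefl _ ((B.adjx _).2 (Or.inl hv))
  have hadj : (dl B.G B.x).Adj v s := ⟨hvs, hvx, hsx⟩
  obtain ⟨h0, g, hg⟩ := E.good 0 φ hT
  have hWε : B.W ε := ⟨w1, hw1, hm1⟩
  have hGd : B.Gd0 (kswap φ ε (φ.c v s) z) := by
    refine ⟨?_, ?_⟩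
    · intro w hw a
      by_cases hlw : Lk φ ε (φ.c v s) z w
      · have n1 : B.m w ≠ ε := by
          intro h
          have : w = w1 := B.mi w hw w1 hw1 (h.trans hm1.symm)
          rw [this] at hlw
          exact hl1 hlw
        have n2 : B.m w ≠ φ.c v s := by
          intro h
          have : w = w2 := B.mi w hw w2 hw2 (h.trans hm2.symm)
          rw [this] at hlw
          exact hl2 hlw
        rw [miss_kswap_in hlw, h0.1 w hw]
        constructor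
        · intro h
          have := congrArg (Equiv.swap ε (φ.c v s)) h
          rwa [Equiv.swap_apply_self, Equiv.swap_apply_of_ne_of_ne n1 n2] at this
        · rintro rfl
          exact Equiv.swap_apply_of_ne_of_ne n1 n2
      · rw [miss_kswap_out hlw, h0.1 w hw]
    · intro a
      by_cases hly : Lk φ ε (φ.c v s) z B.y
      · rw [miss_kswap_in hly, h0.2]
        by_cases ha : a = ε
        · subst ha; rw [Equiv.swap_apply_left]; exact ⟨fun _ => hWε, fun _ => he⟩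
        · by_cases hb : a = φ.c v s
          · rw [hb, Equiv.swap_apply_right]; exact ⟨fun _ => he, fun _ => hWε⟩
          · rw [Equiv.swap_apply_of_ne_of_ne ha hb]
      · rw [miss_kswap_out hly, h0.2]
  have hSD : B.SD (kswap φ ε (φ.c v s) z) g := by
    refine ⟨?_, hg.2.1, hg.2.2⟩
    intro l hl
    have n1 : g l ≠ ε := fun h => hg.2.2 l hl (h ▸ hWε)
    have n2 : g l ≠ φ.c v s := fun h => hg.2.2 l hl (h ▸ he)
    rw [miss_kswap_ne n1 n2]
    exact hg.1 l hl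
  have hT2 := E.step 0 φ _ 0 hT ⟨hGd, g, hSD⟩ (B.nr_kswapW hWε he)
  have hlv : ¬ Lk φ ε (φ.c v s) z v := by
    intro h
    exact hs (h.trans (Lk.of_edge hadj (Or.inr rfl)))
  have e3 : (kswap φ ε (φ.c v s) z).c v s = φ.c v s := kswap_c_out hlv
  refine T_base_fin E hn hQ (by omega) hT2 hv hvs hsx hk hz ?_ ?_
  · rw [e3]; exact Or.inl he
  · rw [e3, miss_kswap_in (Lk.refl _ _ _ _), Equiv.swap_apply_right]
    exact hm

theorem T_base (E : B.Env) (hn : 2 ≤ E.n) (hQ : 3 ≤ E.Q.card)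
    {φ : ECol (dl B.G B.x) C} (hT : E.T 0 φ) {v s : V} (hv : v ∈ B.Wn) (hvs : B.G.Adj v s)
    (hsx : s ≠ B.x) (hk : 20 ≤ k) (Ls : Finset V)
    (hLs : ∀ z ∈ Ls, B.G.Adj s z ∧ z ≠ B.x ∧ z ∉ B.Wn ∧ z ≠ B.y ∧ z ∉ B.L ∧
      ∀ ψ : ECol (dl B.G B.x) C, k ≤ nm ψ z + 1) (hcard : k ≤ Ls.card + 1)
    (he : B.W (φ.c v s) ∨ φ.c v s ∈ E.Q) : False := by
  classical
  obtain ⟨h0, -, -⟩ := E.good 0 φ hT
  -- Step 4
  have hfour : ∀ ε : C, (Ls.filter (fun z => Miss φ z ε)).card ≤ 4 := by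
    intro ε
    by_cases hW : B.W ε ∧ B.W (φ.c v s)
    · obtain ⟨⟨w1, hw1, hm1⟩, ⟨w2, hw2, hm2⟩⟩ := hW
      have heW : B.W (φ.c v s) := ⟨w2, hw2, hm2⟩
      have hsub : Ls.filter (fun z => Miss φ z ε) ⊆
          Ls.filter (fun z => Miss φ z ε ∧ Lk φ ε (φ.c v s) z s) ∪
          (Ls.filter (fun z => Miss φ z ε ∧ Lk φ ε (φ.c v s) z w1) ∪
          Ls.filter (fun z => Miss φ z ε ∧ Lk φ ε (φ.c v s) z w2)) := by
        intro z hz
        rw [Finset.mem_filter] at hz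
        rcases T_base_lk2 E hn hQ hT hv hvs hsx hk (hLs z hz.1) heW hz.2 hw1 hw2 hm1 hm2 with h | h | h
        · exact Finset.mem_union_left _ (Finset.mem_filter.2 ⟨hz.1, hz.2, h⟩)
        · exact Finset.mem_union_right _ (Finset.mem_union_left _
            (Finset.mem_filter.2 ⟨hz.1, hz.2, h⟩))
        · exact Finset.mem_union_right _ (Finset.mem_union_right _
            (Finset.mem_filter.2 ⟨hz.1, hz.2, h⟩))
      have c1 : (Ls.filter (fun z => Miss φ z ε ∧ Lk φ ε (φ.c v s) z s)).card ≤ 2 := by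
        by_contra hcon
        push Not at hcon
        obtain ⟨a, ha, b, hb, c, hc, hab, hac, hbc⟩ := Finset.two_lt_card.1 hcon
        rw [Finset.mem_filter] at ha hb hc
        exact three_ends φ ε (φ.c v s) a b c hab hac hbc (ha.2.2.trans hb.2.2.symm)
          (ha.2.2.trans hc.2.2.symm) (Or.inl ha.2.1) (Or.inl hb.2.1) (Or.inl hc.2.1)
      have c2 : (Ls.filter (fun z => Miss φ z ε ∧ Lk φ ε (φ.c v s) z w1)).card ≤ 1 := by
        rw [Finset.card_le_one]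
        intro a ha b hb
        by_contra hab
        rw [Finset.mem_filter] at ha hb
        have na : w1 ≠ a := by rintro rfl; exact (hLs _ ha.1).2.2.1 hw1
        have nb : w1 ≠ b := by rintro rfl; exact (hLs _ hb.1).2.2.1 hw1
        exact three_ends φ ε (φ.c v s) w1 a b na nb hab ha.2.2.symm hb.2.2.symm
          (Or.inl ((h0.1 w1 hw1 ε).2 hm1.symm)) (Or.inl ha.2.1) (Or.inl hb.2.1)
      have c3 : (Ls.filter (fun z => Miss φ z ε ∧ Lk φ ε (φ.c v s) z w2)).card ≤ 1 := by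
        rw [Finset.card_le_one]
        intro a ha b hb
        by_contra hab
        rw [Finset.mem_filter] at ha hb
        have na : w2 ≠ a := by rintro rfl; exact (hLs _ ha.1).2.2.1 hw2
        have nb : w2 ≠ b := by rintro rfl; exact (hLs _ hb.1).2.2.1 hw2
        exact three_ends φ ε (φ.c v s) w2 a b na nb hab ha.2.2.symm hb.2.2.symm
          (Or.inr ((h0.1 w2 hw2 _).2 hm2.symm)) (Or.inl ha.2.1) (Or.inl hb.2.1)
      have h1 := Finset.card_le_card hsub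
      have h2 := Finset.card_union_le (Ls.filter (fun z => Miss φ z ε ∧ Lk φ ε (φ.c v s) z s))
        (Ls.filter (fun z => Miss φ z ε ∧ Lk φ ε (φ.c v s) z w1) ∪
          Ls.filter (fun z => Miss φ z ε ∧ Lk φ ε (φ.c v s) z w2))
      have h3 := Finset.card_union_le (Ls.filter (fun z => Miss φ z ε ∧ Lk φ ε (φ.c v s) z w1))
        (Ls.filter (fun z => Miss φ z ε ∧ Lk φ ε (φ.c v s) z w2))
      omega
    · have : (Ls.filter (fun z => Miss φ z ε)).card ≤ 2 := by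
        by_contra hcon
        push Not at hcon
        obtain ⟨a, ha, b, hb, c, hc, hab, hac, hbc⟩ := Finset.two_lt_card.1 hcon
        rw [Finset.mem_filter] at ha hb hc
        have la := T_base_lk E hn hQ hT hv hvs hsx hk (hLs a ha.1) he ha.2 hW
        have lb := T_base_lk E hn hQ hT hv hvs hsx hk (hLs b hb.1) he hb.2 hW
        have lc := T_base_lk E hn hQ hT hv hvs hsx hk (hLs c hc.1) he hc.2 hW
        exact three_ends φ ε (φ.c v s) a b c hab hac hbc (la.trans lb.symm)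
          (la.trans lc.symm) (Or.inl ha.2) (Or.inl hb.2) (Or.inl hc.2)
      omega
  -- Step 5
  have hswap : ∑ z ∈ Ls, nm φ z = ∑ ε : C, (Ls.filter (fun z => Miss φ z ε)).card := by
    have e1 : ∀ z ∈ Ls, nm φ z = ∑ ε : C, if Miss φ z ε then 1 else 0 := by
      intro z _
      unfold nm
      rw [Finset.card_filter]
    rw [Finset.sum_congr rfl e1, Finset.sum_comm]
    apply Finset.sum_congr rfl
    intro ε _
    rw [Finset.card_filter]
  have hlow : Ls.card * (k - 1) ≤ ∑ z ∈ Ls, nm φ z := by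
    rw [← smul_eq_mul]
    apply Finset.card_nsmul_le_sum
    intro z hz
    have := (hLs z hz).2.2.2.2.2 φ
    omega
  have hup : ∑ ε : C, (Ls.filter (fun z => Miss φ z ε)).card ≤ (2 * k - 1) * 4 := by
    have := Finset.sum_le_card_nsmul (Finset.univ : Finset C)
      (fun ε => (Ls.filter (fun z => Miss φ z ε)).card) 4 (fun ε _ => hfour ε)
    rwa [Finset.card_univ, B.hC, smul_eq_mul] at this
  rw [hswap] at hlow
  have h1 : (k - 1) * (k - 1) ≤ Ls.card * (k - 1) := Nat.mul_le_mul_right _ (by omega)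
  have h2 : (k - 1) * (k - 1) ≤ (2 * k - 1) * 4 := h1.trans (hlow.trans hup)
  obtain ⟨j, rfl⟩ : ∃ j, k = j + 20 := ⟨k - 20, by omega⟩
  have e3 : j + 20 - 1 = j + 19 := by omega
  have e4 : 2 * (j + 20) - 1 = 2 * j + 39 := by omega
  rw [e3, e4] at h2
  nlinarith

end Base

end Pool.Agent.Y952.VT
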