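import Mathlib
import Pool.Agent.Y952.VT.Main1
import Pool.Agent.Y952.VT.TBase

set_option autoImplicit false

namespace Pool.Agent.Y952.VT

open Pool.Agent.H231EC

open Finset

variable {V C : Type} [Fintype V] [Fintype C] {G : SimpleGraph V} {k : ℕ}

theorem Tt (h : Crit G C k)
    {x v : V} (hx : XX G k x) (hdx : dg G x = Fintype.card C) (hxv : G.Adj x v)
    (hv : ¬ dg G v ≤ k) (Sg : Finset V)
    (hS : ∀ s ∈ Sg, G.Adj v s ∧ XX G k s ∧ dg G s = Fintype.card C ∧ s ≠ x)
    (hcard : k ≤ Sg.card + 4) : False := by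
  classical
  obtain ⟨y, hxy, hy⟩ := exists_small hx
  have hk := h.hk
  have hCk := (fan_struct (by omega) h.hC h.nc h.cr h.deg hx hxy hy).1
  obtain ⟨B, hG, hBx, hBy, hW, hL, hLc, φ, hφ⟩ := exists_base h hx hxy hy
  subst hG hBx hBy
  obtain ⟨E, hn, hR, φ0, hT⟩ := Base.env2 hk φ hφ (by omega)
  have hvW : v ∈ B.Wn := by
    rw [hW]
    simp only [bigN, Finset.mem_filter, Finset.mem_univ, true_and]
    exact ⟨hxv, hv⟩
  have hvx : v ≠ B.x := hxv.ne.symm
  -- choose `s`
  obtain ⟨s, hs, hse⟩ : ∃ s ∈ Sg, ¬ (¬ B.W (φ0.c v s) ∧ φ0.c v s ∉ E.Q) := by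
    by_contra hcon
    push Not at hcon
    have h1 : Sg.image (φ0.c v) ⊆ Finset.univ.filter (fun a => ¬ B.W a ∧ a ∉ E.Q) := by
      intro a ha
      obtain ⟨s, hs, rfl⟩ := Finset.mem_image.1 ha
      simp only [Finset.mem_filter, Finset.mem_univ, true_and]
      exact hcon s hs
    have h2 : (Sg.image (φ0.c v)).card = Sg.card := by
      apply Finset.card_image_of_injOn
      intro s hs s' hs' he
      have e1 := hS s hs
      have e2 := hS s' hs'
      exact φ0.proper v s s' ⟨e1.1, hvx, e1.2.2.2⟩ ⟨e2.1, hvx, e2.2.2.2⟩ he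
    have h3 := Finset.card_le_card h1
    omega
  obtain ⟨hvs, hsX, hsd, hsx⟩ := hS s hs
  have hQ : 3 ≤ E.Q.card := by
    have h1 : Finset.univ.filter (fun a => ¬ B.W a) ⊆
        (Finset.univ.filter (fun a => ¬ B.W a ∧ a ∉ E.Q)) ∪ E.Q := by
      intro a ha
      simp only [Finset.mem_filter, Finset.mem_univ, true_and] at ha
      simp only [Finset.mem_union, Finset.mem_filter, Finset.mem_univ, true_and]
      tauto
    have h2 := (Finset.card_le_card h1).trans (Finset.card_union_le _ _)
    rw [B.card_Wc] at h2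
    omega
  -- the leaves of `s`
  obtain ⟨Ls, hLs⟩ : ∃ Ls : Finset V, Ls = Finset.univ.filter (fun z => B.G.Adj s z ∧ dg B.G z ≤ k) :=
    ⟨_, rfl⟩
  have hLcard : k ≤ Ls.card + 1 := by
    have h1 : Finset.univ.filter (fun w => B.G.Adj s w) ⊆ Ls ∪ bigN B.G k s := by
      intro w hw
      simp only [Finset.mem_filter, Finset.mem_univ, true_and] at hw
      simp only [hLs, bigN, Finset.mem_union, Finset.mem_filter, Finset.mem_univ, true_and]
      tauto
    have h2 := (Finset.card_le_card h1).trans (Finset.card_union_le _ _)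
    have h3 := hsX.2
    have h4 : dg B.G s = (Finset.univ.filter (fun w => B.G.Adj s w)).card := by
      unfold dg; rfl
    omega
  refine Base.T_base E (by omega) hQ hT hvW hvs hsx (by omega) Ls ?_ hLcard ?_
  · intro z hz
    rw [hLs] at hz
    simp only [Finset.mem_filter, Finset.mem_univ, true_and] at hz
    obtain ⟨hsz, hzk⟩ := hz
    have hzx : z ≠ B.x := by
      rintro rfl
      exact hx.1 hzk
    have hnadj : ¬ B.G.Adj B.x z := by
      intro hadj
      have h1 : Ls ⊆ {z} := by
        intro z' hz'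
        rw [hLs] at hz'
        simp only [Finset.mem_filter, Finset.mem_univ, true_and] at hz'
        rw [Finset.mem_singleton]
        exact Sh h hx hadj hzk hsz.symm hsx hz'.1 hz'.2
      have h2 := Finset.card_le_card h1
      rw [Finset.card_singleton] at h2
      omega
    refine ⟨hsz, hzx, ?_, ?_, ?_, ?_⟩
    · intro hzW
      exact hnadj ((B.adjx z).2 (Or.inl hzW))
    · intro hzy
      exact hnadj ((B.adjx z).2 (Or.inr (Or.inl hzy)))
    · intro hzL
      exact hnadj ((B.adjx z).2 (Or.inr (Or.inr hzL)))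
    · intro ψ
      have h1 := Base.nm_add ψ hzx
      have h2 := B.hC
      omega
  · by_cases hw : B.W (φ0.c v s)
    · exact Or.inl hw
    · right
      by_contra hq
      exact hse ⟨hw, hq⟩

end Pool.Agent.Y952.VT
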